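import Pool.Agent.W633.LT.BC

/-!
# The restriction to `P^1 x P^1` does not depend on the interval (project LG)
-/

set_option autoImplicit false

namespace Pool.Agent.W991.LG

open W633.LT

section hom

lemma fine_isHom {v l r l' r' : ℚ} (hl : l ≤ l') (hlv : l' < v) (hvr : v < r') (hr : r' ≤ r)
    (b c : SignType) : IsHom 0 (fibRaw v l r b c) (fibRaw v l' r' b c) := by
  intro m hm
  rw [deck_zero]
  have hv := fib_val_nonneg hm
  obtain ⟨h1, h2, h3, h4⟩ := hm
  refine ⟨h1, h2, ?_, ?_⟩
  · rcases c with _ | _ | _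
    · exact hv
    · change 0 ≤ (m.2.2.1 : ℚ) * l' + m.2.2.2
      change 0 ≤ (m.2.2.1 : ℚ) * l + m.2.2.2 at h3
      rcases le_total 0 (m.2.2.1 : ℚ) with hx | hx
      · have := mul_le_mul_of_nonneg_left hl hx
        linarith
      · have := mul_le_mul_of_nonpos_left hlv.le hx
        linarith
    · exact hv
  · rcases c with _ | _ | _
    · exact hv
    · exact hv
    · change 0 ≤ (m.2.2.1 : ℚ) * r' + m.2.2.2
      change 0 ≤ (m.2.2.1 : ℚ) * r + m.2.2.2 at h4
      rcases le_total 0 (m.2.2.1 : ℚ) with hx | hx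
      · have := mul_le_mul_of_nonneg_left hvr.le hx
        linarith
      · have := mul_le_mul_of_nonpos_left hr hx
        linarith

end hom

variable {k : Type} [Field k] {S : Subdiv}

lemma ringMap_mk {n : ℤ} {x y : Raw} (h : IsHom n x y) (f : AddMonoidAlgebra k x.mon) :
    ringMap k h (Ideal.Quotient.mk _ f) =
      Ideal.Quotient.mk _ (AddMonoidAlgebra.mapDomainRingHom k (monMap h) f) := rfl

lemma ringMap_single {n : ℤ} {x y : Raw} (h : IsHom n x y) (m : x.mon) (a : k) :
    ringMap k h (Ideal.Quotient.mk _ (AddMonoidAlgebra.single m a)) =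
      Ideal.Quotient.mk _ (AddMonoidAlgebra.single (monMap h m) a) := by
  rw [ringMap_mk]
  congr 1
  exact AddMonoidAlgebra.mapDomain_single

lemma piHom_single {v l r : ℚ} {b c : SignType} (hl : l < v) (hr : v < r)
    (m : (fibRaw v l r b c).mon) (a : k) :
    piHom k hl hr b c (Ideal.Quotient.mk _ (AddMonoidAlgebra.single m a)) =
      a • faceVal k v b c m.1 := by
  change (AddMonoidAlgebra.lift k (TorRing k b c) (fibRaw v l r b c).mon
    (faceHom k hl hr b c)) (AddMonoidAlgebra.single m a) = _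
  rw [AddMonoidAlgebra.lift_single]
  rfl

lemma piC_single {v l r l' r' : ℚ} (h : Adm S v l r) (h' : Adm S v l' r') (b c : SignType)
    (hh : IsHom 0 (fibChart h b c).1 (fibChart h' b c).1) (m : (fibChart h b c).1.mon) (a : k) :
    ((piC k h' b c).comp (ringMap k hh)) (Ideal.Quotient.mk _ (AddMonoidAlgebra.single m a)) =
      piC k h b c (Ideal.Quotient.mk _ (AddMonoidAlgebra.single m a)) := by
  rw [RingHom.comp_apply]
  have e1 : ringMap k hh (Ideal.Quotient.mk _ (AddMonoidAlgebra.single m a)) =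
      Ideal.Quotient.mk _ (AddMonoidAlgebra.single (monMap hh m) a) := ringMap_single hh m a
  have e2 : piC k h b c (Ideal.Quotient.mk _ (AddMonoidAlgebra.single m a)) =
      a • faceVal k v b c m.1 := piHom_single h.lv h.vr m a
  have e3 : piC k h' b c (Ideal.Quotient.mk _ (AddMonoidAlgebra.single (monMap hh m) a)) =
      a • faceVal k v b c (monMap hh m).1 := piHom_single h'.lv h'.vr (monMap hh m) a
  have e4 : (monMap hh m).1 = m.1 := deck_zero m.1
  rw [e2, ← e4, ← e3]
  exact congrArg _ e1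

lemma piC_comp {v l r l' r' : ℚ} (h : Adm S v l r) (h' : Adm S v l' r') (b c : SignType)
    (hh : IsHom 0 (fibChart h b c).1 (fibChart h' b c).1) :
    (piC k h' b c).comp (ringMap k hh) = piC k h b c := by
  apply Ideal.Quotient.ringHom_ext
  apply AddMonoidAlgebra.ringHom_ext
  · intro a
    exact piC_single h h' b c hh 0 a
  · intro m
    exact piC_single h h' b c hh m 1

lemma torMap_smul {b c b' c' : SignType} (hb : Sub b b') (hc : Sub c c') (a : k)
    (x : TorRing k b c) : torMap k hb hc (a • x) = a • torMap k hb hc x := by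
  rw [Algebra.smul_def, Algebra.smul_def, map_mul]
  congr 1
  simp [torMap, AddMonoidAlgebra.coe_algebraMap]

lemma piC_res {v l r : ℚ} (h : Adm S v l r) {b c b' c' : SignType} (hb : Sub b b')
    (hc : Sub c c') (hh : IsHom 0 (fibChart h b c).1 (fibChart h b' c').1) :
    (piC k h b' c').comp (ringMap k hh) = (torMap k hb hc).comp (piC k h b c) := by
  have key : ∀ (m : (fibChart h b c).1.mon) (a : k),
      ((piC k h b' c').comp (ringMap k hh)) (Ideal.Quotient.mk _ (AddMonoidAlgebra.single m a)) =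
      ((torMap k hb hc).comp (piC k h b c))
        (Ideal.Quotient.mk _ (AddMonoidAlgebra.single m a)) := by
    intro m a
    rw [RingHom.comp_apply, RingHom.comp_apply, ringMap_single hh m a]
    have e2 : piC k h b c (Ideal.Quotient.mk _ (AddMonoidAlgebra.single m a)) =
        a • faceVal k v b c m.1 := piHom_single h.lv h.vr m a
    have e3 : piC k h b' c' (Ideal.Quotient.mk _ (AddMonoidAlgebra.single (monMap hh m) a)) =
        a • faceVal k v b' c' (monMap hh m).1 := piHom_single h.lv h.vr (monMap hh m) a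
    have e4 : (monMap hh m).1 = m.1 := deck_zero m.1
    rw [e2, torMap_smul, e3, e4]
    congr 1
    unfold faceVal
    split_ifs with h0
    · have := fib_face_mem h.lv h.vr m.2 h0
      rw [torMap_chi hb hc this.1]
    · rw [map_zero]
  apply Ideal.Quotient.ringHom_ext
  apply AddMonoidAlgebra.ringHom_ext
  · intro a
    exact key 0 a
  · intro m
    exact key m 1

/-- A fibre for an interval is a fibre for every smaller interval. -/
lemma refine_fib (E : Bundle0 k S) {v l r l' r' : ℚ} (h : Adm S v l r) (h' : Adm S v l' r')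
    (hl : l ≤ l') (hr : r' ≤ r) (N : MFam k)
    (φ : ∀ b c, E.mod (fibChart h b c) →+ N.mod b c) (hN : IsFib E h N φ) :
    ∃ φ' : ∀ b c, E.mod (fibChart h' b c) →+ N.mod b c, IsFib E h' N φ' := by
  have hh : ∀ b c, IsHom 0 (fibChart h b c).1 (fibChart h' b c).1 := fun b c =>
    fine_isHom hl h'.lv h'.vr hr b c
  have hbc : ∀ b c, IsBC (ringMap k (hh b c)) (E.res (hh b c)) := fun b c => E.res_bc (hh b c)
  -- the maps
  have hex : ∀ b c, ∃ φ' : E.mod (fibChart h' b c) →+ N.mod b c,
      (∀ a e, φ' (a • e) = piC k h' b c a • φ' e) ∧ ∀ e, φ' (E.res (hh b c) e) = φ b c e := by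
    intro b c
    let _ : Module ((fibChart h' b c).1.ring k) (N.mod b c) :=
      Module.compHom (N.mod b c) (piC k h' b c)
    have h1 : ∀ (a : (fibChart h b c).1.ring k) e, φ b c (a • e) =
        ringMap k (hh b c) a • φ b c e := by
      intro a e
      rw [(hN.bc b c).smul]
      change _ = (piC k h' b c) (ringMap k (hh b c) a) • φ b c e
      rw [← RingHom.comp_apply, piC_comp h h' b c (hh b c)]
    refine ⟨((hbc b c).lift (φ b c) h1).toAddMonoidHom, ?_, ?_⟩
    · intro a e
      exact ((hbc b c).lift (φ b c) h1).map_smul a e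
    · intro e
      exact (hbc b c).lift_apply (φ b c) h1 e
  choose φ' hs hφ' using hex
  refine ⟨φ', ⟨?_, ?_⟩⟩
  · intro b c
    refine IsBC.cancel (hbc b c) ?_ (hs b c)
    have e1 : (φ' b c).comp (E.res (hh b c)) = φ b c := by
      ext e
      exact hφ' b c e
    rw [piC_comp h h' b c (hh b c), e1]
    exact hN.bc b c
  · intro b c b' c' hb hc e
    have hx : IsHom 0 (fibChart h b c).1 (fibChart h b' c').1 := fib_isHom hb hc
    have hx' : IsHom 0 (fibChart h' b c).1 (fibChart h' b' c').1 := fib_isHom hb hc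
    have hcomm : ∀ e : E.mod (fibChart h b c), φ' b' c' (E.res hx' (E.res (hh b c) e)) =
        N.res hb hc (φ' b c (E.res (hh b c) e)) := by
      intro e
      rw [hφ', E.res_comp]
      have e2 : E.res ((hh b c).comp hx') e = E.res (hh b' c') (E.res hx e) := by
        rw [E.res_comp]
      rw [e2, hφ']
      exact hN.comm hb hc e
    have key := (hbc b c).ext_semi (ρ' := (torMap k hb hc).comp (piC k h' b c))
      (G := (φ' b' c').comp (E.res hx')) (G' := (N.res hb hc).comp (φ' b c))
      (fun a n => ?_) (fun a n => ?_) hcomm e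
    · exact key
    · rw [AddMonoidHom.comp_apply, (E.res_bc hx').smul, hs, ← piC_res h' hb hc hx']
      rfl
    · rw [AddMonoidHom.comp_apply, hs, (N.res_bc hb hc).smul]
      rfl

/-- Isomorphic bundles. -/
def Iso (N N' : MFam k) : Prop :=
  ∃ ψ : ∀ b c : SignType, N.mod b c ≃ₗ[TorRing k b c] N'.mod b c,
    ∀ {b c b' c' : SignType} (hb : Sub b b') (hc : Sub c c') (v),
      N'.res hb hc (ψ b c v) = ψ b' c' (N.res hb hc v)

lemma Iso.twist {N N' : MFam k} (h : Iso N N') : MFam.Twist N N' 0 0 := by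
  obtain ⟨ψ, hψ⟩ := h
  refine ⟨ψ, fun hb c v => hψ hb (Sub.refl c) v, fun hb v => ?_, fun hb v => ?_⟩
  · rw [chi_zero, one_smul]
    exact hψ hb (Sub.zero 1) v
  · rw [chi_zero, one_smul]
    exact hψ hb (Sub.zero (-1)) v

/-- Uniqueness of the fibre for the same interval. -/
lemma iso_of_fib (E : Bundle0 k S) {v l r : ℚ} (h : Adm S v l r) (N N' : MFam k)
    (φ : ∀ b c, E.mod (fibChart h b c) →+ N.mod b c)
    (φ' : ∀ b c, E.mod (fibChart h b c) →+ N'.mod b c) (hN : IsFib E h N φ)
    (hN' : IsFib E h N' φ') : Iso N N' := by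
  refine ⟨fun b c => (hN.bc b c).equiv (hN'.bc b c), ?_⟩
  intro b c b' c' hb hc w
  refine (hN.bc b c).ext_semi (ρ' := torMap k hb hc)
    (G := (N'.res hb hc).comp ((hN.bc b c).equiv (hN'.bc b c)).toAddEquiv.toAddMonoidHom)
    (G' := (((hN.bc b' c').equiv (hN'.bc b' c')).toAddEquiv.toAddMonoidHom).comp (N.res hb hc))
    (fun a n => ?_) (fun a n => ?_) (fun e => ?_) w
  · change N'.res hb hc (((hN.bc b c).equiv (hN'.bc b c)) (a • n)) =
      torMap k hb hc a • N'.res hb hc (((hN.bc b c).equiv (hN'.bc b c)) n)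
    rw [map_smul, (N'.res_bc hb hc).smul]
  · change ((hN.bc b' c').equiv (hN'.bc b' c')) (N.res hb hc (a • n)) =
      torMap k hb hc a • ((hN.bc b' c').equiv (hN'.bc b' c')) (N.res hb hc n)
    rw [(N.res_bc hb hc).smul, map_smul]
  · change N'.res hb hc (((hN.bc b c).equiv (hN'.bc b c)) (φ b c e)) =
      ((hN.bc b' c').equiv (hN'.bc b' c')) (N.res hb hc (φ b c e))
    rw [IsBC.equiv_apply, ← hN.comm hb hc e, ← hN'.comm hb hc e, IsBC.equiv_apply]

/-- The restriction does not depend on the interval. -/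
theorem rindep : RIndep := by
  intro k _ S E v l r l' r' h h' N N' φ φ' hN hN'
  have h'' : Adm S v (max l l') (min r r') := by
    refine ⟨max_lt h.lv h'.lv, lt_min h.vr h'.vr, ?_, ?_⟩
    · intro q hq hh
      exact h.left q hq ⟨lt_of_le_of_lt (le_max_left _ _) hh.1, hh.2⟩
    · intro q hq hh
      exact h.right q hq ⟨hh.1, lt_of_lt_of_le hh.2 (min_le_left _ _)⟩
  obtain ⟨φ1, h1⟩ := refine_fib E h h'' (le_max_left _ _) (min_le_left _ _) N φ hN
  obtain ⟨φ2, h2⟩ := refine_fib E h' h'' (le_max_right _ _) (min_le_right _ _) N' φ' hN'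
  exact (iso_of_fib E h'' N N' φ1 φ2 h1 h2).twist

end Pool.Agent.W991.LG
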